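import Pool.Agent.W670.ML.Defs

set_option autoImplicit false
set_option linter.all false

namespace Pool.Agent.W918.ML

open Pool.Agent.W670.ML

theorem key (k Ω : Type) [Field k] [CharZero k] [Field Ω] [Algebra k Ω] [IsAlgClosure k Ω]
    (K : IntermediateField k Ω)
    (x : Ω) (h : ∀ σ : Ω ≃ₐ[k] Ω, (∀ y ∈ K, σ y = y) → σ x = x) : x ∈ K := by
  have : IsAlgClosed Ω := IsAlgClosure.isAlgClosed k
  have : Algebra.IsAlgebraic k Ω := IsAlgClosure.isAlgebraic
  have : Normal k Ω := IsAlgClosure.normal k Ω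
  have : IsGalois k Ω := ⟨⟩
  have h1 := InfiniteGalois.fixedField_fixingSubgroup K
  rw [← h1, IntermediateField.mem_fixedField_iff]
  intro σ hσ
  apply h
  intro y hy
  rw [IntermediateField.mem_fixingSubgroup_iff] at hσ
  exact hσ y hy

theorem gen (k Ω : Type) [Field k] [CharZero k] [Field Ω] [Algebra k Ω] [IsAlgClosure k Ω]
    (M : IntermediateField k Ω) (N : ℕ) (hM : Module.finrank k M = N) (hN : 0 < N) :
    {K : IntermediateField k Ω | K ≤ M}.Finite ∧
      {K : IntermediateField k Ω | K ≤ M}.ncard ≤ 2 ^ N := by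
  have : IsAlgClosed Ω := IsAlgClosure.isAlgClosed k
  have hfd : FiniteDimensional k M := FiniteDimensional.of_finrank_pos (by omega)
  have hcard : Fintype.card (M →ₐ[k] Ω) = N := by
    rw [AlgHom.card, hM]
  let f : IntermediateField k Ω → Set (M →ₐ[k] Ω) := fun K =>
    {φ | ∀ x : M, (x : Ω) ∈ K → φ x = x}
  have hinj : Set.InjOn f {K : IntermediateField k Ω | K ≤ M} := by
    have hsub : ∀ K K' : IntermediateField k Ω, K ≤ M → K' ≤ M → f K = f K' → K ≤ K' := by
      intro K K' hK hK' hf x hx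
      apply key k Ω
      intro σ hσ
      have h1 : (σ : Ω →ₐ[k] Ω).comp M.val ∈ f K' := by
        intro y hy
        exact hσ y hy
      rw [← hf] at h1
      exact h1 ⟨x, hK hx⟩ hx
    intro K hK K' hK' hf
    exact le_antisymm (hsub K K' hK hK' hf) (hsub K' K hK' hK hf.symm)
  have hmaps : Set.MapsTo f {K : IntermediateField k Ω | K ≤ M} Set.univ := fun _ _ => Set.mem_univ _
  refine ⟨Set.Finite.of_injOn hmaps hinj Set.finite_univ, ?_⟩
  refine (Set.ncard_le_ncard_of_injOn f (fun a _ => Set.mem_univ _) hinj Set.finite_univ).trans ?_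
  rw [Set.ncard_univ, Nat.card_eq_fintype_card, Fintype.card_set, hcard]

theorem sf : S_SF := by
  intro N
  refine ⟨2 ^ N, ?_⟩
  intro Ω _ _ _ M hM hN
  refine gen ℚ Ω M N ?_ hN
  convert hM

end Pool.Agent.W918.ML
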